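import Pool.Agent.H27.LimE

set_option maxHeartbeats 4000000

open Filter Topology

namespace Pool.Agent.Results.MP_6829b3_nt.ComputableLimit

/-- no three distinct elements `a, b, c` of `A` with `a ∣ b` and `a ∣ c` -/
def Admissible (A : Finset ℕ) : Prop :=
  ∀ a ∈ A, ∀ b ∈ A, ∀ c ∈ A, a ≠ b → a ≠ c → b ≠ c → ¬ (a ∣ b ∧ a ∣ c)

/-- the largest cardinality of an admissible subset of `{1, …, n}` -/
noncomputable def f (n : ℕ) : ℕ :=
  sSup {k : ℕ | ∃ A : Finset ℕ, A ⊆ Finset.Icc 1 n ∧ Admissible A ∧ A.card = k}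

/-- the largest cardinality of an admissible subset of `{1, …, s}` consisting of integers
all of whose prime factors are `< K` -/
noncomputable def h (K s : ℕ) : ℕ :=
  sSup {k : ℕ | ∃ A : Finset ℕ, A ⊆ Finset.Icc 1 s ∧ (∀ a ∈ A, a ∈ Nat.smoothNumbers K) ∧
    Admissible A ∧ A.card = k}

/-- `∏_{p < K} (1 - 1/p)` -/
noncomputable def D (K : ℕ) : ℝ := ∏ p ∈ Nat.primesBelow K, (1 - (p : ℝ)⁻¹)

/-- `∏_{p < K} (1 - 1/p) · ∑_{s ≤ N} (h_K(s) - h_K(s-1)) / s` -/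
noncomputable def S (K N : ℕ) : ℝ :=
  D K * ∑ s ∈ Finset.Icc 1 N, ((h K s : ℝ) - (h K (s - 1) : ℝ)) / s

/-- `1 - ∏_{p < K} (1 - 1/p) · ∑ 1/s`, the sum over the integers `s ≤ N` all of whose prime
factors are `< K` -/
noncomputable def R (K N : ℕ) : ℝ :=
  1 - D K * ∑ s ∈ (Finset.Icc 1 N).filter (fun s => s ∈ Nat.smoothNumbers K), ((s : ℝ))⁻¹

lemma f_eq (n : ℕ) : f n = H27.LimDiv.F (fun a b c => a ∣ b ∧ a ∣ c) (Finset.Icc 1 n) := by
  apply le_antisymm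
  · apply csSup_le
    · exact ⟨0, ∅, by simp, by intro a ha; simp at ha, by simp⟩
    · rintro k ⟨A, hA, hA', rfl⟩
      exact H27.LimDiv.le_F hA hA'
  · obtain ⟨A, hA, hA', hc⟩ := H27.LimDiv.exists_F (fun a b c => a ∣ b ∧ a ∣ c) (Finset.Icc 1 n)
    rw [← hc]
    apply le_csSup
    · refine ⟨(Finset.Icc 1 n).card, ?_⟩
      rintro k ⟨B, hB, _, rfl⟩
      exact Finset.card_le_card hB
    · exact ⟨A, hA, hA', rfl⟩

lemma h_eq (K s : ℕ) : h K s = H27.LimDiv.hh (fun a b c => a ∣ b ∧ a ∣ c) K s := by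
  apply le_antisymm
  · apply csSup_le
    · exact ⟨0, ∅, by simp, by simp, by intro a ha; simp at ha, by simp⟩
    · rintro k ⟨A, hA, hs, hA', rfl⟩
      exact H27.LimDiv.hh_le hA hs hA'
  · obtain ⟨A, hA, hs, hA', hc⟩ := H27.LimDiv.exists_hh (fun a b c => a ∣ b ∧ a ∣ c) K s
    rw [← hc]
    apply le_csSup
    · refine ⟨(Finset.Icc 1 s).card, ?_⟩
      rintro k ⟨B, hB, _, _, rfl⟩
      exact Finset.card_le_card hB
    · exact ⟨A, hA, hs, hA', rfl⟩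

lemma R_eq (K N : ℕ) : R K N = 1 - H27.LimDiv.PiK K *
    ∑ s ∈ Finset.Icc 1 N, (K.smoothNumbers).indicator (fun n => ((n:ℝ))⁻¹) s := by
  unfold R
  rw [Finset.sum_filter]
  congr 2
  apply Finset.sum_congr rfl
  intro s _
  rw [Set.indicator_apply]

end Pool.Agent.Results.MP_6829b3_nt.ComputableLimit

open Pool.Agent.Results.MP_6829b3_nt.ComputableLimit in
theorem Pool.Agent.Results.MP_6829b3_nt.ComputableLimit.result :
    ∃ L : ℝ, Tendsto (fun n : ℕ => (f n : ℝ) / n) atTop (𝓝 L) ∧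
      (∀ K N : ℕ, 1 ≤ K → S K N - 1 / K ≤ L ∧ L ≤ S K N + R K N) ∧
      (∀ ε : ℝ, 0 < ε → ∃ K : ℕ, 1 ≤ K ∧ ∃ N : ℕ, 1 / (K : ℝ) + R K N < ε) ∧
      (∀ K : ℕ, Summable (fun s : ℕ => ((h K s : ℝ) - (h K (s - 1) : ℝ)) / s)) ∧
      Tendsto (fun K : ℕ => D K * ∑' s : ℕ, ((h K s : ℝ) - (h K (s - 1) : ℝ)) / s) atTop (𝓝 L) := by
  obtain ⟨L, hL⟩ := Pool.Agent.H27.LimDiv.lim_f
  have hb := fun (K : ℕ) (hK : 0 < K) => Pool.Agent.H27.LimDiv.bounds_main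
    (T := fun a b c => a ∣ b ∧ a ∣ c) Pool.Agent.H27.LimDiv.scale1 Pool.Agent.H27.LimDiv.htr_f hL hK
  have hlam : ∀ K : ℕ, D K * ∑' s : ℕ, ((h K s : ℝ) - (h K (s - 1) : ℝ)) / s =
      Pool.Agent.H27.LimDiv.lam (fun a b c => a ∣ b ∧ a ∣ c) K := by
    intro K
    simp only [h_eq]
    rfl
  have hS : ∀ K N : ℕ, S K N = Pool.Agent.H27.LimDiv.PiK K * ∑ s ∈ Finset.Icc 1 N,
      Pool.Agent.H27.LimDiv.dl (fun a b c => a ∣ b ∧ a ∣ c) K s / s := by
    intro K N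
    unfold S
    simp only [h_eq]
    rfl
  refine ⟨L, ?_, ?_, ?_, ?_, ?_⟩
  · simp only [f_eq]
    exact hL
  · intro K N hK
    rw [R_eq, hS]
    have h1 := hb K hK
    have h2 := Pool.Agent.H27.LimDiv.lam_lower (fun a b c => a ∣ b ∧ a ∣ c) K N
    have h3 := Pool.Agent.H27.LimDiv.lam_upper (fun a b c => a ∣ b ∧ a ∣ c) K N
    constructor
    · linarith [h1.1]
    · linarith [h1.2]
  · intro ε hε
    obtain ⟨K, hK, N, hN⟩ := Pool.Agent.H27.LimDiv.gap_small ε hε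
    exact ⟨K, hK, N, by rw [R_eq]; exact hN⟩
  · intro K
    simp only [h_eq]
    exact Pool.Agent.H27.LimDiv.summable_dl _ K
  · simp only [hlam]
    rw [tendsto_iff_dist_tendsto_zero]
    refine squeeze_zero' (Eventually.of_forall (fun n => dist_nonneg)) ?_
      (tendsto_const_div_atTop_nhds_zero_nat (1:ℝ))
    filter_upwards [eventually_gt_atTop 0] with K hK
    rw [Real.dist_eq, abs_le]
    have h1 := hb K hK
    have : (0:ℝ) ≤ 1 / K := by positivity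
    constructor <;> linarith [h1.1, h1.2]
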