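import Pool.Agent.H27.LimC

set_option maxHeartbeats 4000000

open Filter Topology

namespace Pool.Agent.Results.MP_6829b3_nt.LimitExists

/-- no three distinct elements `a, b, c` of `A` with `a ∣ b` and `a ∣ c` -/
def Admissible (A : Finset ℕ) : Prop :=
  ∀ a ∈ A, ∀ b ∈ A, ∀ c ∈ A, a ≠ b → a ≠ c → b ≠ c → ¬ (a ∣ b ∧ a ∣ c)

/-- the largest cardinality of an admissible subset of `{1, …, n}` -/
noncomputable def f (n : ℕ) : ℕ :=
  sSup {k : ℕ | ∃ A : Finset ℕ, A ⊆ Finset.Icc 1 n ∧ Admissible A ∧ A.card = k}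

lemma f_eq (n : ℕ) : f n = H27.LimDiv.F (fun a b c => a ∣ b ∧ a ∣ c) (Finset.Icc 1 n) := by
  apply le_antisymm
  · apply csSup_le
    · exact ⟨0, ∅, by simp, by intro a ha; simp at ha, by simp⟩
    · rintro k ⟨A, hA, hA', rfl⟩
      exact H27.LimDiv.le_F hA hA'
  · obtain ⟨A, hA, hA', hc⟩ := H27.LimDiv.exists_F (fun a b c => a ∣ b ∧ a ∣ c) (Finset.Icc 1 n)
    rw [← hc]
    apply le_csSup
    · refine ⟨(Finset.Icc 1 n).card, ?_⟩
      rintro k ⟨B, hB, _, rfl⟩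
      exact Finset.card_le_card hB
    · exact ⟨A, hA, hA', rfl⟩

end Pool.Agent.Results.MP_6829b3_nt.LimitExists

open Pool.Agent.Results.MP_6829b3_nt.LimitExists in
/-- `f n / n` converges as `n → ∞`. -/
theorem Pool.Agent.Results.MP_6829b3_nt.LimitExists.result :
    ∃ L : ℝ, Tendsto (fun n : ℕ => (f n : ℝ) / n) atTop (𝓝 L) := by
  simp only [f_eq]
  exact Pool.Agent.H27.LimDiv.lim_f
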